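import Mathlib

namespace Pool.Agent.Results.MP_efe010_an.Conv

open Filter Topology

/-- three-step map -/
noncomputable def G (A a b c : ℝ) : ℝ := (A + a) / (A + (A + b) / (A + (A + c) / (A + a)))

lemma G_eq (A a b c : ℝ) (hA : 0 < A) (ha : 0 ≤ a) (hb : 0 ≤ b) (hc : 0 ≤ c) :
    G A a b c = (A + a) * (A * (A + a) + (A + c)) /
      (A * (A * (A + a) + (A + c)) + (A + b) * (A + a)) := by
  unfold G; field_simp

lemma G_mono (A a b c a' b' c' : ℝ) (hA : 0 < A) (ha : 0 ≤ a) (hb : 0 ≤ b') (hc : 0 ≤ c)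
    (h1 : a ≤ a') (h2 : b' ≤ b) (h3 : c ≤ c') : G A a b c ≤ G A a' b' c' := by
  have hb0 : 0 ≤ b := by linarith
  have hc0 : 0 ≤ c' := by linarith
  have ha0 : 0 ≤ a' := by linarith
  have e1 : G A a b c ≤ G A a b' c' := by
    unfold G; gcongr
  refine e1.trans ?_
  rw [G_eq A a b' c' hA ha hb (by linarith), G_eq A a' b' c' hA (by linarith) hb (by linarith),
    div_le_div_iff₀ (by positivity) (by positivity)]
  obtain ⟨d, rfl⟩ : ∃ d, a' = a + d := ⟨a' - a, by ring⟩
  have hd : 0 ≤ d := by linarith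
  set P := A + a
  set Q := A + b'
  set R := A + c'
  have hP : 0 < P := by positivity
  have hQ : 0 < Q := by positivity
  have hR : 0 < R := by simp only [R]; linarith
  have : A + (a + d) = P + d := by simp only [P]; ring
  rw [this, ← sub_nonneg]
  have : (P + d) * (A * (P + d) + R) * (A * (A * P + R) + Q * P) -
      P * (A * P + R) * (A * (A * (P + d) + R) + Q * (P + d)) =
      d * (A * (A * P + R) * (A * (P + d) + R) + A * Q * P * (P + d)) := by ring
  rw [this]; positivity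

lemma G_diag (A s t : ℝ) (hA : 0 < A) (hs : 0 ≤ s) (ht : 0 ≤ t) :
    G A s t s = (A + s) * (A + 1) / (A ^ 2 + 2 * A + t) := by
  unfold G; field_simp; ring

theorem conv (A : ℝ) (hA : 0 < A) (hA' : 1 < A ^ 2 + A) (x : ℕ → ℝ)
    (h0 : 0 ≤ x 0) (h1 : 0 ≤ x 1) (h2 : 0 ≤ x 2)
    (hx : ∀ n, x (n + 3) = (A + x n) / (A + x (n + 2))) : Tendsto x atTop (𝓝 1) := by
  have hpos : ∀ n, 0 ≤ x n := by
    intro n
    induction n using Nat.strong_induction_on with
    | _ n ih =>
      match n with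
      | 0 => exact h0
      | 1 => exact h1
      | 2 => exact h2
      | n + 3 =>
        rw [hx]
        have := ih n (by omega)
        have := ih (n + 2) (by omega)
        positivity
  have hG : ∀ n, x (n + 5) = G A (x (n + 2)) (x (n + 1)) (x n) := by
    intro n
    unfold G
    rw [hx (n + 2), hx (n + 1), hx n]
  -- boundedness
  obtain ⟨M, hM1, hM2⟩ : ∃ M : ℝ, A * (A + 1) ≤ M * (A ^ 2 + A - 1) ∧ ∀ n < 5, x n ≤ M := by
    refine ⟨A * (A + 1) / (A ^ 2 + A - 1) + (x 0 + x 1 + x 2 + x 3 + x 4), ?_, ?_⟩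
    · have : 0 < A ^ 2 + A - 1 := by linarith
      rw [add_mul, div_mul_cancel₀ _ this.ne']
      have : 0 ≤ (x 0 + x 1 + x 2 + x 3 + x 4) * (A ^ 2 + A - 1) := by
        have := hpos 3; have := hpos 4; positivity
      linarith
    · intro n hn
      have : 0 ≤ A * (A + 1) / (A ^ 2 + A - 1) := div_nonneg (by positivity) (by linarith)
      have := hpos 3; have := hpos 4
      interval_cases n <;> linarith
  have hM0 : 0 ≤ M := (hpos 0).trans (hM2 0 (by norm_num))
  have hbd : ∀ n, x n ≤ M := by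
    intro n
    induction n using Nat.strong_induction_on with
    | _ n ih =>
      by_cases hn : n < 5
      · exact hM2 n hn
      · obtain ⟨m, rfl⟩ : ∃ m, n = m + 5 := ⟨n - 5, by omega⟩
        rw [hG]
        refine (G_mono A _ _ _ M 0 M hA (hpos _) le_rfl (hpos _) (ih _ (by omega)) (hpos _)
          (ih _ (by omega))).trans ?_
        rw [G_diag A M 0 hA hM0 le_rfl, div_le_iff₀ (by positivity)]
        nlinarith
  have hb1 : IsBoundedUnder (· ≤ ·) atTop x := isBoundedUnder_of ⟨M, hbd⟩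
  have hb2 : IsBoundedUnder (· ≥ ·) atTop x := isBoundedUnder_of ⟨0, hpos⟩
  set S := limsup x atTop
  set I := liminf x atTop
  have hI0 : 0 ≤ I := le_liminf_of_le hb1.isCoboundedUnder_ge (Eventually.of_forall hpos)
  have hIS : I ≤ S := liminf_le_limsup hb1 hb2
  have hev : ∀ ε > 0, ∃ N, ∀ n ≥ N, max (I - ε) 0 ≤ x n ∧ x n ≤ S + ε := by
    intro ε hε
    have e1 := eventually_lt_of_limsup_lt (show S < S + ε by linarith) hb1
    have e2 := eventually_lt_of_lt_liminf (show I - ε < I by linarith) hb2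
    obtain ⟨N, hN⟩ := eventually_atTop.1 (e1.and e2)
    exact ⟨N, fun n hn => ⟨max_le (hN n hn).2.le (hpos n), (hN n hn).1.le⟩⟩
  have hS : ∀ ε > 0, S * (A ^ 2 + 2 * A + max (I - ε) 0) ≤ (A + (S + ε)) * (A + 1) := by
    intro ε hε
    obtain ⟨N, hN⟩ := hev ε hε
    have hm := le_max_right (I - ε) 0
    rw [← le_div_iff₀ (by positivity), ← G_diag A _ _ hA (by linarith) hm]
    refine limsup_le_of_le hb2.isCoboundedUnder_le (eventually_atTop.2 ⟨N + 5, fun n hn => ?_⟩)
    obtain ⟨m, rfl⟩ : ∃ m, n = m + 5 := ⟨n - 5, by omega⟩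
    rw [hG]
    exact G_mono A _ _ _ _ _ _ hA (hpos _) hm (hpos _) (hN _ (by omega)).2 (hN _ (by omega)).1
      (hN _ (by omega)).2
  have hI : ∀ ε > 0, (A + max (I - ε) 0) * (A + 1) ≤ I * (A ^ 2 + 2 * A + (S + ε)) := by
    intro ε hε
    obtain ⟨N, hN⟩ := hev ε hε
    have hm := le_max_right (I - ε) 0
    have hS0 : 0 ≤ S + ε := by linarith
    rw [← div_le_iff₀ (by positivity), ← G_diag A _ _ hA hm hS0]
    refine le_liminf_of_le hb1.isCoboundedUnder_ge (eventually_atTop.2 ⟨N + 5, fun n hn => ?_⟩)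
    obtain ⟨m, rfl⟩ : ∃ m, n = m + 5 := ⟨n - 5, by omega⟩
    rw [hG]
    exact G_mono A _ _ _ _ _ _ hA hm (hpos _) hm (hN _ (by omega)).1 (hN _ (by omega)).2
      (hN _ (by omega)).1
  have hS0 : 0 ≤ S := hI0.trans hIS
  have hS' : S * (A ^ 2 + 2 * A + I) ≤ (A + S) * (A + 1) := by
    refine le_of_forall_pos_le_add fun δ hδ => ?_
    have hε : 0 < δ / (S + A + 1) := by positivity
    have h := hS _ hε
    have hm := le_max_left (I - δ / (S + A + 1)) 0
    have e : δ / (S + A + 1) * (S + A + 1) = δ := by field_simp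
    nlinarith [mul_le_mul_of_nonneg_left hm hS0]
  have hI' : (A + I) * (A + 1) ≤ I * (A ^ 2 + 2 * A + S) := by
    refine le_of_forall_pos_le_add fun δ hδ => ?_
    have hε : 0 < δ / (I + A + 1) := by positivity
    have h := hI _ hε
    have hm := le_max_left (I - δ / (I + A + 1)) 0
    have e : δ / (I + A + 1) * (I + A + 1) = δ := by field_simp
    nlinarith [mul_le_mul_of_nonneg_left hm (show 0 ≤ A + 1 by linarith)]
  have hSI : S = I := by
    refine le_antisymm ?_ hIS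
    by_contra h
    push Not at h
    nlinarith [mul_pos (sub_pos.2 h) (show 0 < A ^ 2 + A - 1 by linarith)]
  have hone : I = 1 := by
    rw [hSI] at hS' hI'
    have : (I - 1) * (I + (A ^ 2 + A)) = 0 := by nlinarith
    rcases mul_eq_zero.1 this with h | h
    · linarith
    · nlinarith
  exact tendsto_of_liminf_eq_limsup hone (hSI.trans hone) hb1 hb2

theorem result : ∀ A α : ℝ, (√5 - 1) / 2 < A → A < 1 → α = A →
    0 < A ∧ 0 < α ∧ α < (2 - A + √(5 * A ^ 2 - 4 * A ^ 3)) / 2 ∧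
    ∀ x : ℕ → ℝ, 0 ≤ x 0 → 0 ≤ x 1 → 0 ≤ x 2 →
      (∀ n, x (n + 3) = (α + x n) / (A + x (n + 2))) →
      Tendsto x atTop (𝓝 ((1 - A + √((1 - A) ^ 2 + 4 * α)) / 2)) := by
  intro A α h1 h2 hα
  rw [hα]
  have h5 : (2 : ℝ) < √5 := by
    rw [Real.lt_sqrt (by norm_num)]; norm_num
  have h55 : √5 ^ 2 = (5 : ℝ) := Real.sq_sqrt (by norm_num)
  have hA : 0 < A := by linarith
  refine ⟨hA, hA, ?_, ?_⟩
  · have : A < √(5 * A ^ 2 - 4 * A ^ 3) := by
      rw [Real.lt_sqrt hA.le]
      nlinarith [mul_pos (pow_pos hA 2) (sub_pos.2 h2)]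
    linarith
  · intro x a0 a1 a2 hx
    have : √((1 - A) ^ 2 + 4 * A) = 1 + A := by
      rw [show (1 - A) ^ 2 + 4 * A = (1 + A) ^ 2 by ring, Real.sqrt_sq (by linarith)]
    rw [this, show (1 - A + (1 + A)) / 2 = 1 by ring]
    exact conv A hA (by nlinarith) x a0 a1 a2 hx

end Pool.Agent.Results.MP_efe010_an.Conv
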